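import Pool.Agent.H55.PM.Targets

/-!
# Module FR of the board pm_modules (MP_9198c9_nt)
-/

set_option autoImplicit false

open Finset

namespace Pool.Agent.H66.PM.FR

open Pool.Agent.H55.PM

/-- `x` is a combination of the elements of `S` with natural coefficients -/
def Rep (S : Finset ℕ) (x : ℕ) : Prop := ∃ m : ℕ → ℕ, ∑ a ∈ S, m a * a = x

theorem Rep.add {S : Finset ℕ} {x y : ℕ} (hx : Rep S x) (hy : Rep S y) : Rep S (x + y) := by
  obtain ⟨m, rfl⟩ := hx
  obtain ⟨m', rfl⟩ := hy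
  refine ⟨fun a => m a + m' a, ?_⟩
  rw [← Finset.sum_add_distrib]
  exact Finset.sum_congr rfl fun a _ => by ring

theorem Rep.mul {S : Finset ℕ} {x : ℕ} (c : ℕ) (hx : Rep S x) : Rep S (c * x) := by
  obtain ⟨m, rfl⟩ := hx
  refine ⟨fun a => c * m a, ?_⟩
  rw [Finset.mul_sum]
  exact Finset.sum_congr rfl fun a _ => by ring

theorem Rep.mono {S S' : Finset ℕ} (h : S ⊆ S') {x : ℕ} (hx : Rep S x) : Rep S' x := by
  classical
  obtain ⟨m, rfl⟩ := hx
  refine ⟨fun a => if a ∈ S then m a else 0, ?_⟩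
  rw [← Finset.sum_subset h]
  · exact Finset.sum_congr rfl fun a ha => by beta_reduce; rw [if_pos ha]
  · intro a _ ha
    beta_reduce
    rw [if_neg ha, zero_mul]

theorem exists_rep {A : Set ℕ} {x : ℕ} (hx : x ∈ AddSubmonoid.closure A) :
    ∃ S : Finset ℕ, (∀ a ∈ S, 0 < a ∧ a ∈ A) ∧ Rep S x := by
  classical
  induction hx using AddSubmonoid.closure_induction with
  | mem a ha =>
    by_cases h0 : 0 < a
    · refine ⟨{a}, fun b hb => ?_, fun _ => 1, by simp⟩
      rw [Finset.mem_singleton.1 hb]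
      exact ⟨h0, ha⟩
    · refine ⟨∅, by simp, fun _ => 0, ?_⟩
      simp only [Finset.sum_empty]
      omega
  | zero => exact ⟨∅, by simp, fun _ => 0, by simp⟩
  | add x y _ _ ihx ihy =>
    obtain ⟨S, hS, hx⟩ := ihx
    obtain ⟨S', hS', hy⟩ := ihy
    refine ⟨S ∪ S', fun a ha => ?_, (hx.mono Finset.subset_union_left).add
      (hy.mono Finset.subset_union_right)⟩
    rcases Finset.mem_union.1 ha with h | h
    · exact hS a h
    · exact hS' a h

theorem pf_fr : T_FR := by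
  intro A hA
  classical
  obtain ⟨F₀, hF₀⟩ := Nat.exists_mem_closure_of_ge A
  have hg : Nat.setGcd A = 1 := hA _ fun a ha => Nat.setGcd_dvd_of_mem ha
  have hall : ∀ n ≥ F₀, n ∈ AddSubmonoid.closure A := fun n hn =>
    hF₀ n hn (by rw [hg]; exact one_dvd n)
  obtain ⟨S, hS, h1⟩ := exists_rep (hall (F₀ + 1) (by omega))
  obtain ⟨S', hS', h2⟩ := exists_rep (hall (F₀ + 1 + 1) (by omega))
  refine ⟨S ∪ S', (F₀ + 1) * (F₀ + 1), fun a ha => ?_, fun n hn => ?_⟩
  · rcases Finset.mem_union.1 ha with h | h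
    · exact hS a h
    · exact hS' a h
  · have h1' : Rep (S ∪ S') (F₀ + 1) := h1.mono Finset.subset_union_left
    have h2' : Rep (S ∪ S') (F₀ + 1 + 1) := h2.mono Finset.subset_union_right
    have hr : n % (F₀ + 1) < F₀ + 1 := Nat.mod_lt _ (by omega)
    have hq : F₀ + 1 ≤ n / (F₀ + 1) := (Nat.le_div_iff_mul_le (by omega)).2 hn
    have hn' : (n / (F₀ + 1) - n % (F₀ + 1)) * (F₀ + 1) + n % (F₀ + 1) * (F₀ + 1 + 1) = n := by
      obtain ⟨c, hc⟩ : ∃ c, n / (F₀ + 1) = n % (F₀ + 1) + c := ⟨_, (Nat.add_sub_of_le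
        (by omega)).symm⟩
      rw [hc, Nat.add_sub_cancel_left]
      have h3 := Nat.div_add_mod n (F₀ + 1)
      rw [hc] at h3
      conv_rhs => rw [← h3]
      ring
    have := (h1'.mul (n / (F₀ + 1) - n % (F₀ + 1))).add (h2'.mul (n % (F₀ + 1)))
    rw [hn'] at this
    exact this

end Pool.Agent.H66.PM.FR
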