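import Pool.Agent.H55.PM.Targets

/-!
# Module LE of the board pm_modules (MP_9198c9_nt)
-/

set_option autoImplicit false

open Finset

namespace Pool.Agent.H66.PM.LE

open Pool.Agent.H55.PM

theorem finite_inter (A : Set ℕ) (x : ℕ) : (A ∩ Set.Icc 1 x).Finite :=
  (Set.finite_Icc 1 x).subset Set.inter_subset_right

theorem pf_le : T_LE := by
  intro A M n₀ Y h
  classical
  let SA : Finset ℕ := (finite_inter A Y).toFinset
  let SM : Finset ℕ := insert 0 (finite_inter M Y).toFinset
  have hSA : ∀ a, a ∈ SA ↔ a ∈ A ∧ 1 ≤ a ∧ a ≤ Y := by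
    intro a
    simp only [SA, Set.Finite.mem_toFinset, Set.mem_inter_iff, Set.mem_Icc]
  have hSM : ∀ a, a ∈ SM ↔ a = 0 ∨ (a ∈ M ∧ 1 ≤ a ∧ a ≤ Y) := by
    intro a
    simp only [SM, Finset.mem_insert, Set.Finite.mem_toFinset, Set.mem_inter_iff, Set.mem_Icc]
  have hcA : SA.card = cnt A Y := by
    rw [cnt, Set.ncard_eq_toFinset_card _ (finite_inter A Y)]
  have hcM : SM.card = 1 + cnt M Y := by
    rw [cnt, Set.ncard_eq_toFinset_card _ (finite_inter M Y)]
    rw [Finset.card_insert_of_notMem, add_comm]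
    simp
  have hne : ∀ n, ∃ p : Nat.Partition n, n₀ ≤ n → n ≤ Y → p ∈ PS A M n := by
    intro n
    by_cases hn : n₀ ≤ n ∧ n ≤ Y
    · have h1 := h n hn.1 hn.2
      obtain ⟨p, hp⟩ := Set.nonempty_of_ncard_ne_zero (s := PS A M n)
        (by unfold pc at h1; omega)
      exact ⟨p, fun _ _ => hp⟩
    · exact ⟨Nat.Partition.indiscrete n, fun h1 h2 => absurd ⟨h1, h2⟩ hn⟩
  choose p hp using hne
  have hmem : ∀ n, n₀ ≤ n → n ≤ Y → ∀ a ∈ (p n).parts, a ∈ SA := by
    intro n h1 h2 a ha
    rw [hSA]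
    refine ⟨(hp n h1 h2 a ha).1, (p n).parts_pos ha, ?_⟩
    have h3 : a ≤ (p n).parts.sum := Multiset.le_sum_of_mem ha
    rw [(p n).parts_sum] at h3
    omega
  have hcount : ∀ n, n₀ ≤ n → n ≤ Y → ∀ a, (p n).parts.count a ∈ SM := by
    intro n h1 h2 a
    rw [hSM]
    by_cases ha : a ∈ (p n).parts
    · right
      have h0 : 1 ≤ (p n).parts.count a := Multiset.one_le_count_iff_mem.2 ha
      refine ⟨(hp n h1 h2 a ha).2, h0, ?_⟩
      have h3 : (p n).parts.sum = ∑ i ∈ (p n).parts.toFinset, (p n).parts.count i • i :=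
        Finset.sum_multiset_count _
      have h4 : (p n).parts.count a • a ≤
          ∑ i ∈ (p n).parts.toFinset, (p n).parts.count i • i :=
        Finset.single_le_sum (f := fun i => (p n).parts.count i • i)
          (fun _ _ => Nat.zero_le _) (Multiset.mem_toFinset.2 ha)
      rw [← h3, (p n).parts_sum, smul_eq_mul] at h4
      have h5 : 0 < a := (p n).parts_pos ha
      calc (p n).parts.count a = (p n).parts.count a * 1 := (mul_one _).symm
        _ ≤ (p n).parts.count a * a := Nat.mul_le_mul_left _ h5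
        _ ≤ n := h4
        _ ≤ Y := h2
    · left
      exact Multiset.count_eq_zero.2 ha
  have hsum : ∀ n, n₀ ≤ n → n ≤ Y → n = ∑ a ∈ SA, (p n).parts.count a * a := by
    intro n h1 h2
    have h3 := Finset.sum_multiset_count_of_subset (p n).parts SA (by
      intro a ha
      exact hmem n h1 h2 a (Multiset.mem_toFinset.1 ha))
    rw [(p n).parts_sum] at h3
    simpa only [smul_eq_mul] using h3
  have hcard : (Finset.Icc n₀ Y).card ≤ (Fintype.piFinset fun _ : SA => SM).card := by
    refine Finset.card_le_card_of_injOn (fun n (a : SA) => (p n).parts.count (a : ℕ)) ?_ ?_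
    · intro n hn
      have hn' := Finset.mem_Icc.1 (Finset.mem_coe.1 hn)
      simp only [Finset.mem_coe, Fintype.mem_piFinset]
      intro a
      exact hcount n hn'.1 hn'.2 a
    · intro n hn n' hn' he
      have hn := Finset.mem_Icc.1 (Finset.mem_coe.1 hn)
      have hn' := Finset.mem_Icc.1 (Finset.mem_coe.1 hn')
      rw [hsum n hn.1 hn.2, hsum n' hn'.1 hn'.2]
      refine Finset.sum_congr rfl fun a ha => ?_
      have := congrFun he ⟨a, ha⟩
      simp only at this
      rw [this]
  rw [Fintype.card_piFinset, Finset.prod_const, Finset.card_univ, Fintype.card_coe, hcA, hcM,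
    Nat.card_Icc] at hcard
  omega

end Pool.Agent.H66.PM.LE
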